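import Mathlib
import Pool.Agent.H288R2.Wirt
import Pool.Agent.H288R2.DartTour

set_option autoImplicit false

namespace Pool.Agent.Results.MP_ea35a0_co.PathMaximises

open SimpleGraph Matrix Finset Filter

section Defs

variable {V : Type*} [Fintype V]

open Classical in
/-- Transition matrix of simple random walk: `P(x,y) = 1/deg(x)` if `xy` is an edge, else `0`. -/
noncomputable def walkMatrix (G : SimpleGraph V) : Matrix V V ℝ :=
  Matrix.of fun x y => if G.Adj x y then 1 / (G.degree x : ℝ) else 0

/-- The (real) eigenvalues of the transition matrix which are different from `1`. -/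
def nontrivialEigenvalues (G : SimpleGraph V) : Set ℝ :=
  {μ : ℝ | μ ≠ 1 ∧ ∃ f : V → ℝ, f ≠ 0 ∧ walkMatrix G *ᵥ f = μ • f}

/-- `λ₂`: the largest eigenvalue of the transition matrix different from `1` (for a connected
graph `1` is a simple eigenvalue and the largest one). -/
noncomputable def lambdaTwo (G : SimpleGraph V) : ℝ := sSup (nontrivialEigenvalues G)

/-- Relaxation time `T_rel(G) = 1 / (1 - λ₂)`. -/
noncomputable def relaxationTime (G : SimpleGraph V) : ℝ := 1 / (1 - lambdaTwo G)

end Defs

/-- The relaxation times of all finite connected graphs with `m` edges. -/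
def relaxationTimes (m : ℕ) : Set ℝ :=
  {t | ∃ (V : Type) (_ : Fintype V) (G : SimpleGraph V),
    G.Connected ∧ G.edgeSet.ncard = m ∧ t = relaxationTime G}

/-- The relaxation times of all finite trees with `m` edges. -/
def treeRelaxationTimes (m : ℕ) : Set ℝ :=
  {t | ∃ (V : Type) (_ : Fintype V) (G : SimpleGraph V),
    G.IsTree ∧ G.edgeSet.ncard = m ∧ t = relaxationTime G}

/-- `R(m)`. -/
noncomputable def R (m : ℕ) : ℝ := sSup (relaxationTimes m)

/-- `R_tree(m)`. -/
noncomputable def Rtree (m : ℕ) : ℝ := sSup (treeRelaxationTimes m)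

section Lemmas

variable {V : Type*} [Fintype V]

open Classical in
theorem walkMatrix_mulVec (G : SimpleGraph V) (f : V → ℝ) (x : V) :
    (walkMatrix G *ᵥ f) x = (1 / (G.degree x : ℝ)) * ∑ y ∈ G.neighborFinset x, f y := by
  simp only [walkMatrix, Matrix.mulVec, dotProduct, Matrix.of_apply]
  rw [Finset.mul_sum, neighborFinset_eq_filter, Finset.sum_filter]
  refine Finset.sum_congr rfl fun y _ => ?_
  split_ifs <;> simp

open Classical in
/-- Upper bound for the nontrivial eigenvalues. -/
theorem eigenvalue_le (G : SimpleGraph V) (hG : G.Connected) (m : ℕ) (hm : 1 ≤ m)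
    (hcard : G.edgeSet.ncard = m) (μ : ℝ) (hμ : μ ∈ nontrivialEigenvalues G) :
    μ ≤ Real.cos (Real.pi / m) := by
  obtain ⟨hμ1, f, hf0, hf⟩ := hμ
  -- `deg(x) * μ * f x = ∑_{y ~ x} f y`
  have hcardE : #G.edgeFinset = m := by
    rw [← hcard, Set.ncard_eq_toFinset_card', ← SimpleGraph.edgeFinset]
  have hdartcard : Fintype.card G.Dart = 2 * m := by
    rw [dart_card_eq_twice_card_edges, hcardE]
  have hpos : ∀ x : V, 0 < G.degree x := by
    intro x
    have hnt : Nontrivial V := by
      by_contra hnt
      rw [not_nontrivial_iff_subsingleton] at hnt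
      have : G.edgeFinset = ∅ := by
        rw [Finset.eq_empty_iff_forall_notMem]
        intro e
        induction e with
        | _ a b =>
          rw [mem_edgeFinset, mem_edgeSet, Subsingleton.elim a b]
          exact G.loopless.irrefl b
      rw [this] at hcardE
      simp at hcardE
      omega
    exact hG.preconnected.degree_pos_of_nontrivial x
  have heq : ∀ x : V, ∑ y ∈ G.neighborFinset x, f y = (G.degree x : ℝ) * (μ * f x) := by
    intro x
    have h1 := congrFun hf x
    rw [walkMatrix_mulVec, Pi.smul_apply, smul_eq_mul] at h1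
    have : (G.degree x : ℝ) ≠ 0 := by exact_mod_cast (hpos x).ne'
    rw [← h1]; field_simp
  -- orthogonality
  have hdeg0 : ∑ x, (G.degree x : ℝ) * f x = 0 := by
    have h1 : ∑ x, ∑ y ∈ G.neighborFinset x, f y = ∑ x, (G.degree x : ℝ) * f x := by
      have e1 := H288R2.sum_darts_univ G (fun _ y => f y)
      have e2 := H288R2.sum_darts_univ G (fun x _ => f x)
      rw [← e1]
      have e3 : ∑ d : G.Dart, f d.snd = ∑ d : G.Dart, f d.fst := by
        rw [← Equiv.sum_comp (Function.Involutive.toPerm _ (Dart.symm_involutive (G := G)))]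
        rfl
      rw [e3, e2]
      refine Finset.sum_congr rfl fun x _ => ?_
      rw [Finset.sum_const, card_neighborFinset_eq_degree, nsmul_eq_mul]
    have h2 : ∑ x, ∑ y ∈ G.neighborFinset x, f y = μ * ∑ x, (G.degree x : ℝ) * f x := by
      rw [Finset.mul_sum]
      refine Finset.sum_congr rfl fun x _ => ?_
      rw [heq x]; ring
    have h3 : (1 - μ) * ∑ x, (G.degree x : ℝ) * f x = 0 := by
      have := h1.symm.trans h2
      linarith
    rcases mul_eq_zero.mp h3 with h | h
    · exact absurd (by linarith) hμ1
    · exact h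
  obtain ⟨v, w, hnd, hall⟩ := H288R2.exists_dart_tour G hG
  have hlen : w.length = 2 * m := by
    rw [← Walk.length_darts, ← hdartcard, ← List.toFinset_card_of_nodup hnd]
    rw [← Finset.card_univ]
    congr 1
    ext d
    simp [hall d]
  have : NeZero (2 * m) := ⟨by omega⟩
  -- sum over the tour
  have htour : ∀ g : V → V → ℝ, ∑ i ∈ Finset.range (2 * m), g (w.getVert i) (w.getVert (i + 1)) =
      ∑ x, ∑ y ∈ G.neighborFinset x, g x y := by
    intro g
    rw [← hlen, ← H288R2.sum_darts_eq, ← H288R2.sum_darts_univ]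
    rw [← List.sum_toFinset _ hnd]
    congr 1
    ext d
    simp [hall d]
  let F : ZMod (2 * m) → ℝ := fun i => f (w.getVert i.val)
  have hFsucc : ∀ i : ZMod (2 * m), F (i + 1) = f (w.getVert (i.val + 1)) := by
    intro i
    simp only [F]
    by_cases hlt : i.val + 1 < 2 * m
    · have : (i + 1).val = i.val + 1 := by
        rw [ZMod.val_add_of_lt]
        · rw [ZMod.val_one'' (by omega)]
        · rw [ZMod.val_one'' (by omega)]; exact hlt
      rw [this]
    · have h1 := ZMod.val_lt i
      have h2 : i.val + 1 = 2 * m := by omega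
      have h3 : (i + 1).val = 0 := by
        rw [ZMod.val_eq_zero]
        have : ((i.val + 1 : ℕ) : ZMod (2 * m)) = 0 := by rw [h2]; exact ZMod.natCast_self _
        rw [← this]
        push_cast
        rw [ZMod.natCast_zmod_val]
      rw [h3, h2, ← hlen, Walk.getVert_length, Walk.getVert_zero]
  have hsum : ∀ g : ℕ → ℝ, ∑ i : ZMod (2 * m), g i.val = ∑ i ∈ Finset.range (2 * m), g i := by
    intro g
    symm
    refine Finset.sum_bij' (fun i _ => (i : ZMod (2 * m))) (fun i _ => i.val) ?_ ?_ ?_ ?_ ?_
    · intro i _; exact Finset.mem_univ _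
    · intro i _; exact Finset.mem_range.mpr (ZMod.val_lt i)
    · intro i hi; exact ZMod.val_natCast_of_lt (Finset.mem_range.mp hi)
    · intro i _; exact ZMod.natCast_zmod_val i
    · intro i hi; rw [ZMod.val_natCast_of_lt (Finset.mem_range.mp hi)]
  have hF0 : ∑ i, F i = 0 := by
    rw [← hdeg0]
    simp only [F]
    rw [hsum (fun i => f (w.getVert i))]
    rw [htour (fun x _ => f x)]
    refine Finset.sum_congr rfl fun x _ => ?_
    rw [Finset.sum_const, card_neighborFinset_eq_degree, nsmul_eq_mul]
  have hF2 : ∑ i, F i ^ 2 = ∑ x, (G.degree x : ℝ) * f x ^ 2 := by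
    simp only [F]
    rw [hsum (fun i => f (w.getVert i) ^ 2)]
    rw [htour (fun x _ => f x ^ 2)]
    refine Finset.sum_congr rfl fun x _ => ?_
    rw [Finset.sum_const, card_neighborFinset_eq_degree, nsmul_eq_mul]
  have hF1 : ∑ i, F i * F (i + 1) = μ * ∑ x, (G.degree x : ℝ) * f x ^ 2 := by
    simp_rw [hFsucc]
    simp only [F]
    rw [hsum (fun i => f (w.getVert i) * f (w.getVert (i + 1)))]
    rw [htour (fun x y => f x * f y), Finset.mul_sum]
    refine Finset.sum_congr rfl fun x _ => ?_
    rw [← Finset.mul_sum, heq x]; ring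
  have hW := H288R2.wirtinger F hF0
  rw [hF1, hF2] at hW
  have hposS : 0 < ∑ x, (G.degree x : ℝ) * f x ^ 2 := by
    obtain ⟨x, hx⟩ := Function.ne_iff.mp hf0
    refine Finset.sum_pos' (fun y _ => by positivity) ⟨x, Finset.mem_univ _, ?_⟩
    have h1 : (0 : ℝ) < G.degree x := by exact_mod_cast hpos x
    have h2 : 0 < f x ^ 2 := by
      have : f x ≠ 0 := hx
      positivity
    positivity
  have hle := le_of_mul_le_mul_right hW hposS
  have : 2 * Real.pi / ((2 * m : ℕ) : ℝ) = Real.pi / m := by
    push_cast
    have : (m : ℝ) ≠ 0 := by exact_mod_cast (by omega : m ≠ 0)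
    field_simp
  rwa [this] at hle

open Classical in
/-- A finite connected graph with at least one vertex has a walk eigenvalue different from `1`. -/
theorem nontrivialEigenvalues_nonempty (G : SimpleGraph V) [Nonempty V]
    (hpos : ∀ x : V, 0 < G.degree x) :
    (nontrivialEigenvalues G).Nonempty := by
  -- the symmetric matrix `D^{-1/2} A D^{-1/2}`
  let S : Matrix V V ℝ := Matrix.of fun x y =>
    if G.Adj x y then 1 / (√(G.degree x : ℝ) * √(G.degree y : ℝ)) else 0
  have hS : S.IsHermitian := by
    ext x y
    simp only [S, conjTranspose_apply, Matrix.of_apply, star_trivial]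
    by_cases h : G.Adj x y
    · rw [if_pos h, if_pos h.symm, mul_comm]
    · rw [if_neg h, if_neg (fun h' => h h'.symm)]
  have htr : S.trace = 0 := by
    simp [S, Matrix.trace, Matrix.diag]
  have hne : ∃ i, hS.eigenvalues i ≠ 1 := by
    by_contra hcon
    push Not at hcon
    have h1 := hS.trace_eq_sum_eigenvalues
    rw [htr] at h1
    simp only [hcon, RCLike.ofReal_real_eq_id, id_eq, Finset.sum_const, Finset.card_univ,
      nsmul_eq_mul, mul_one] at h1
    have : (0 : ℝ) < Fintype.card V := by exact_mod_cast Fintype.card_pos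
    linarith
  obtain ⟨i, hi⟩ := hne
  refine ⟨hS.eigenvalues i, hi, ?_⟩
  have hv := hS.mulVec_eigenvectorBasis i
  set u : V → ℝ := (hS.eigenvectorBasis i).ofLp with hu
  have hsq : ∀ x : V, 0 < √(G.degree x : ℝ) := fun x => Real.sqrt_pos.mpr (by exact_mod_cast hpos x)
  refine ⟨fun x => u x / √(G.degree x : ℝ), ?_, ?_⟩
  · intro h0
    have hu0 : hS.eigenvectorBasis i = 0 := by
      ext x
      have := congrFun h0 x
      simp only [Pi.zero_apply, div_eq_zero_iff] at this
      rcases this with h | h
      · simpa using h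
      · exact absurd h (hsq x).ne'
    have h1 := hS.eigenvectorBasis.orthonormal.1 i
    rw [hu0] at h1
    simp at h1
  · ext x
    have h1 := congrFun hv x
    rw [walkMatrix_mulVec]
    simp only [S, Matrix.mulVec, dotProduct, Matrix.of_apply, Pi.smul_apply, smul_eq_mul] at h1
    simp only [Pi.smul_apply, smul_eq_mul]
    have h2 : ∑ y ∈ G.neighborFinset x, u y / √(G.degree y : ℝ) =
        √(G.degree x : ℝ) * (hS.eigenvalues i * u x) := by
      rw [← h1, Finset.mul_sum, neighborFinset_eq_filter, Finset.sum_filter]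
      refine Finset.sum_congr rfl fun y _ => ?_
      split_ifs
      · have := (hsq x).ne'
        have := (hsq y).ne'
        field_simp
      · simp
    rw [h2]
    have h3 : √(G.degree x : ℝ) * √(G.degree x : ℝ) = G.degree x :=
      Real.mul_self_sqrt (by positivity)
    have h4 := (hsq x).ne'
    have h5 : (G.degree x : ℝ) ≠ 0 := by exact_mod_cast (hpos x).ne'
    rw [mul_div_assoc']
    rw [eq_div_iff h4]
    have : 1 / (G.degree x : ℝ) * (√(G.degree x : ℝ) * (hS.eigenvalues i * u x)) *
        √(G.degree x : ℝ) = 1 / (G.degree x : ℝ) * (√(G.degree x : ℝ) * √(G.degree x : ℝ)) *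
          (hS.eigenvalues i * u x) := by ring
    rw [this, h3]
    field_simp

open Classical in
theorem degree_pos_of_edges (G : SimpleGraph V) (hG : G.Connected) (m : ℕ) (hm : 1 ≤ m)
    (hcard : G.edgeSet.ncard = m) (x : V) : 0 < G.degree x := by
  have hcardE : #G.edgeFinset = m := by
    rw [← hcard, Set.ncard_eq_toFinset_card', ← SimpleGraph.edgeFinset]
  have hnt : Nontrivial V := by
    by_contra hnt
    rw [not_nontrivial_iff_subsingleton] at hnt
    have : G.edgeFinset = ∅ := by
      rw [Finset.eq_empty_iff_forall_notMem]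
      intro e
      induction e with
      | _ a b =>
        rw [mem_edgeFinset, mem_edgeSet, Subsingleton.elim a b]
        exact G.loopless.irrefl b
    rw [this] at hcardE
    simp at hcardE
    omega
  exact hG.preconnected.degree_pos_of_nontrivial x

theorem cos_lt_one (m : ℕ) (hm : 1 ≤ m) : Real.cos (Real.pi / m) < 1 := by
  have hm' : (1 : ℝ) ≤ m := by exact_mod_cast hm
  have hpi := Real.pi_pos
  rw [← Real.cos_zero]
  apply Real.cos_lt_cos_of_nonneg_of_le_pi le_rfl
  · rw [div_le_iff₀ (by linarith)]
    nlinarith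
  · positivity

/-- The main inequality: `T_rel(G) ≤ 1 / (1 - cos(π/m))` for every connected graph with `m ≥ 1`
edges. -/
theorem relaxationTime_le (G : SimpleGraph V) (hG : G.Connected) (m : ℕ) (hm : 1 ≤ m)
    (hcard : G.edgeSet.ncard = m) :
    relaxationTime G ≤ 1 / (1 - Real.cos (Real.pi / m)) := by
  classical
  have : Nonempty V := hG.nonempty
  have h1 : lambdaTwo G ≤ Real.cos (Real.pi / m) :=
    csSup_le (nontrivialEigenvalues_nonempty G (degree_pos_of_edges G hG m hm hcard))
      fun μ hμ => eigenvalue_le G hG m hm hcard μ hμ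
  have h2 := cos_lt_one m hm
  apply one_div_le_one_div_of_le <;> linarith

end Lemmas

section Path

theorem path_edge_ncard (m : ℕ) : (pathGraph (m + 1)).edgeSet.ncard = m := by
  have h : (pathGraph (m + 1)).edgeSet =
      Set.range (fun i : Fin m => s(i.castSucc, i.succ)) := by
    ext e
    induction e with
    | _ a b =>
      rw [mem_edgeSet, pathGraph_adj, Set.mem_range]
      constructor
      · rintro (h | h)
        · refine ⟨⟨a.val, by omega⟩, ?_⟩
          rw [Sym2.eq_iff]
          left
          constructor <;> ext <;> simp [h]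
        · refine ⟨⟨b.val, by omega⟩, ?_⟩
          rw [Sym2.eq_iff]
          right
          constructor <;> ext <;> simp [h]
      · rintro ⟨i, hi⟩
        rw [Sym2.eq_iff] at hi
        rcases hi with ⟨h1, h2⟩ | ⟨h1, h2⟩
        · left; rw [← h1, ← h2]; simp
        · right; rw [← h1, ← h2]; simp
  rw [h, ← Set.image_univ, Set.ncard_image_of_injective]
  · simp
  · intro i j hij
    simp only at hij
    rw [Sym2.eq_iff] at hij
    rcases hij with ⟨h1, _⟩ | ⟨h1, h2⟩
    · exact Fin.castSucc_injective _ h1
    · have h3 := congrArg Fin.val h1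
      have h4 := congrArg Fin.val h2
      simp at h3 h4
      omega

theorem path_isTree (m : ℕ) : (pathGraph (m + 1)).IsTree := by
  rw [isTree_iff_connected_and_card]
  refine ⟨pathGraph_connected m, ?_⟩
  rw [Nat.card_coe_set_eq, path_edge_ncard, Nat.card_fin]

open Classical in
theorem path_neighbor_sum (m : ℕ) (j : Fin (m + 1)) (g : ℕ → ℝ) :
    ∑ y ∈ (pathGraph (m + 1)).neighborFinset j, g y.val =
      (if 0 < j.val then g (j.val - 1) else 0) + (if j.val < m then g (j.val + 1) else 0) := by
  rw [neighborFinset_eq_filter, Finset.sum_filter]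
  have h1 : ∀ y : Fin (m + 1), (if (pathGraph (m + 1)).Adj j y then g y.val else 0) =
      (if y.val + 1 = j.val then g y.val else 0) + (if j.val + 1 = y.val then g y.val else 0) := by
    intro y
    rw [pathGraph_adj]
    by_cases h1 : j.val + 1 = y.val
    · have h2 : ¬ (y.val + 1 = j.val) := by omega
      simp [h1, h2]
    · by_cases h2 : y.val + 1 = j.val
      · simp [h1, h2]
      · simp [h1, h2]
  rw [Finset.sum_congr rfl fun y _ => h1 y, Finset.sum_add_distrib]
  congr 1
  · split_ifs with h
    · rw [Finset.sum_eq_single (⟨j.val - 1, by omega⟩ : Fin (m + 1))]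
      · rw [if_pos]; simp; omega
      · intro b _ hb
        rw [if_neg]
        intro hb'
        exact hb (Fin.ext (by simp; omega))
      · intro hh; exact absurd (Finset.mem_univ _) hh
    · refine Finset.sum_eq_zero fun y _ => ?_
      rw [if_neg]; omega
  · split_ifs with h
    · rw [Finset.sum_eq_single (⟨j.val + 1, by omega⟩ : Fin (m + 1))]
      · rw [if_pos rfl]
      · intro b _ hb
        rw [if_neg]
        intro hb'
        exact hb (Fin.ext (by simp; omega))
      · intro hh; exact absurd (Finset.mem_univ _) hh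
    · refine Finset.sum_eq_zero fun y _ => ?_
      rw [if_neg]
      have := y.isLt
      omega

/-- `cos(π/m)` is an eigenvalue of simple random walk on the path with `m` edges. -/
theorem path_eigenvalue (m : ℕ) (hm : 1 ≤ m) :
    Real.cos (Real.pi / m) ∈ nontrivialEigenvalues (pathGraph (m + 1)) := by
  refine ⟨(cos_lt_one m hm).ne, fun j => Real.cos (Real.pi * j.val / m), ?_, ?_⟩
  · intro h
    have := congrFun h 0
    simp at this
  · classical
    ext j
    have hm0 : (m : ℝ) ≠ 0 := by exact_mod_cast (by omega : m ≠ 0)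
    rw [walkMatrix_mulVec]
    have hs := path_neighbor_sum m j (fun i => Real.cos (Real.pi * i / m))
    have hd := path_neighbor_sum m j (fun _ => 1)
    rw [Finset.sum_const, card_neighborFinset_eq_degree, nsmul_eq_mul, mul_one] at hd
    rw [hs, hd, Pi.smul_apply, smul_eq_mul]
    have hj := j.isLt
    by_cases h0 : 0 < j.val
    · by_cases h1 : j.val < m
      · rw [if_pos h0, if_pos h1, if_pos h0, if_pos h1]
        have e1 : Real.pi * ((j.val - 1 : ℕ) : ℝ) / m =
            Real.pi * j.val / m - Real.pi / m := by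
          rw [Nat.cast_sub (by omega : 1 ≤ j.val)]
          push_cast; field_simp
        have e2 : Real.pi * ((j.val + 1 : ℕ) : ℝ) / m =
            Real.pi * j.val / m + Real.pi / m := by
          push_cast; field_simp
        rw [e1, e2, Real.cos_sub, Real.cos_add]
        ring
      · have hjm : j.val = m := by omega
        rw [if_pos h0, if_neg h1, if_pos h0, if_neg h1, hjm]
        have e1 : Real.pi * ((m - 1 : ℕ) : ℝ) / m =
            Real.pi - Real.pi / m := by
          rw [Nat.cast_sub (by omega : 1 ≤ m)]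
          push_cast; field_simp
        have e2 : Real.pi * (m : ℝ) / m = Real.pi := by field_simp
        rw [e1, e2, Real.cos_pi_sub, Real.cos_pi]
        ring
    · have hj0 : j.val = 0 := by omega
      rw [if_neg h0, if_pos (by omega), if_neg h0, if_pos (by omega), hj0]
      simp

theorem path_relaxationTime (m : ℕ) (hm : 1 ≤ m) :
    relaxationTime (pathGraph (m + 1)) = 1 / (1 - Real.cos (Real.pi / m)) := by
  have h : lambdaTwo (pathGraph (m + 1)) = Real.cos (Real.pi / m) := by
    apply IsGreatest.csSup_eq
    exact ⟨path_eigenvalue m hm, fun μ hμ =>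
      eigenvalue_le _ (pathGraph_connected m) m hm (path_edge_ncard m) μ hμ⟩
  rw [relaxationTime, h]

end Path

section Main

theorem isGreatest_relaxationTimes (m : ℕ) (hm : 1 ≤ m) :
    IsGreatest (relaxationTimes m) (relaxationTime (pathGraph (m + 1))) := by
  refine ⟨⟨Fin (m + 1), inferInstance, pathGraph (m + 1), pathGraph_connected m,
    path_edge_ncard m, rfl⟩, ?_⟩
  rintro t ⟨V, _, G, hG, hcard, rfl⟩
  rw [path_relaxationTime m hm]
  exact relaxationTime_le G hG m hm hcard

theorem isGreatest_treeRelaxationTimes (m : ℕ) (hm : 1 ≤ m) :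
    IsGreatest (treeRelaxationTimes m) (relaxationTime (pathGraph (m + 1))) := by
  refine ⟨⟨Fin (m + 1), inferInstance, pathGraph (m + 1), path_isTree m,
    path_edge_ncard m, rfl⟩, ?_⟩
  rintro t ⟨V, _, G, hG, hcard, rfl⟩
  rw [path_relaxationTime m hm]
  exact relaxationTime_le G hG.connected m hm hcard

theorem asymp : Asymptotics.IsEquivalent atTop
    (fun m : ℕ => 1 / (1 - Real.cos (Real.pi / m)))
    (fun m : ℕ => 2 * (m : ℝ) ^ 2 / Real.pi ^ 2) := by
  have hpi := Real.pi_pos
  have hlim : Tendsto (fun m : ℕ => (1 - Real.cos (Real.pi / m)) / (Real.pi / m) ^ 2)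
      atTop (nhds (1 / 2)) := by
    have hbd : ∀ᶠ m : ℕ in atTop, |(1 - Real.cos (Real.pi / m)) / (Real.pi / m) ^ 2 - 1 / 2| ≤
        (Real.pi / m) ^ 2 * (5 / 96) := by
      filter_upwards [eventually_ge_atTop 4] with m hm
      have hm' : (4 : ℝ) ≤ m := by exact_mod_cast hm
      have hx0 : 0 < Real.pi / m := by positivity
      have hx : |Real.pi / m| ≤ 1 := by
        rw [abs_of_pos hx0, div_le_one (by linarith)]
        linarith [Real.pi_le_four]
      have hb := Real.cos_bound hx
      rw [abs_of_pos hx0] at hb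
      have h2 : (1 - Real.cos (Real.pi / m)) / (Real.pi / m) ^ 2 - 1 / 2 =
          -(Real.cos (Real.pi / m) - (1 - (Real.pi / m) ^ 2 / 2)) / (Real.pi / m) ^ 2 := by
        have : (Real.pi / m) ^ 2 ≠ 0 := by positivity
        field_simp
        ring
      rw [h2, abs_div, abs_neg, abs_of_pos (a := (Real.pi / m) ^ 2) (by positivity),
        div_le_iff₀ (by positivity)]
      calc _ ≤ _ := hb
        _ = _ := by ring
    have hz : Tendsto (fun m : ℕ => (Real.pi / (m : ℝ)) ^ 2 * (5 / 96)) atTop (nhds 0) := by
      have h := tendsto_const_div_atTop_nhds_zero_nat Real.pi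
      simpa using (h.pow 2).mul_const (5 / 96)
    have hz' : Tendsto (fun m : ℕ => (1 - Real.cos (Real.pi / m)) / (Real.pi / m) ^ 2 - 1 / 2)
        atTop (nhds 0) := by
      refine squeeze_zero_norm' ?_ hz
      filter_upwards [hbd] with m hm
      rw [Real.norm_eq_abs]
      exact hm
    have := hz'.add_const (1 / 2)
    simpa using this
  refine Asymptotics.isEquivalent_of_tendsto_one ?_
  have h3 : Tendsto (fun m : ℕ => (1 / 2 : ℝ) *
      ((1 - Real.cos (Real.pi / m)) / (Real.pi / m) ^ 2)⁻¹) atTop (nhds ((1 / 2) * (1 / 2)⁻¹)) :=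
    (hlim.inv₀ (by norm_num)).const_mul _
  have h4 : (1 / 2 : ℝ) * (1 / 2)⁻¹ = 1 := by norm_num
  rw [h4] at h3
  refine h3.congr' ?_
  filter_upwards [eventually_ge_atTop 1] with m hm
  have hm' : (1 : ℝ) ≤ m := by exact_mod_cast hm
  have hc := cos_lt_one m hm
  have hc' : 1 - Real.cos (Real.pi / m) ≠ 0 := by linarith
  simp only [Pi.div_apply]
  have : (m : ℝ) ≠ 0 := by linarith
  field_simp

/-- **Answer to Q1 and Q2.**  For every `m ≥ 1`, the path `P_m` maximises the relaxation time of
simple random walk among all connected graphs with `m` edges (and hence also among all trees with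
`m` edges), and `T_rel(P_m) = 1 / (1 - cos(π/m))`.  Consequently `R(m)` and `R_tree(m)` are both
equal to `T_rel(P_m) ∼ 2m²/π²`. -/
theorem result :
    (∀ m : ℕ, 1 ≤ m →
      IsGreatest (relaxationTimes m) (relaxationTime (pathGraph (m + 1))) ∧
      IsGreatest (treeRelaxationTimes m) (relaxationTime (pathGraph (m + 1))) ∧
      R m = relaxationTime (pathGraph (m + 1)) ∧
      Rtree m = relaxationTime (pathGraph (m + 1)) ∧
      relaxationTime (pathGraph (m + 1)) = 1 / (1 - Real.cos (Real.pi / m))) ∧
    Asymptotics.IsEquivalent atTop R (fun m : ℕ => 2 * (m : ℝ) ^ 2 / Real.pi ^ 2) ∧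
    Asymptotics.IsEquivalent atTop Rtree (fun m : ℕ => 2 * (m : ℝ) ^ 2 / Real.pi ^ 2) := by
  refine ⟨fun m hm => ⟨isGreatest_relaxationTimes m hm, isGreatest_treeRelaxationTimes m hm,
    (isGreatest_relaxationTimes m hm).csSup_eq, (isGreatest_treeRelaxationTimes m hm).csSup_eq,
    path_relaxationTime m hm⟩, ?_, ?_⟩
  · refine asymp.congr_left ?_
    filter_upwards [eventually_ge_atTop 1] with m hm
    rw [← path_relaxationTime m hm]
    exact (isGreatest_relaxationTimes m hm).csSup_eq.symm
  · refine asymp.congr_left ?_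
    filter_upwards [eventually_ge_atTop 1] with m hm
    rw [← path_relaxationTime m hm]
    exact (isGreatest_treeRelaxationTimes m hm).csSup_eq.symm

end Main

end Pool.Agent.Results.MP_ea35a0_co.PathMaximises
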